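import Mathlib

/-!
# MP_77b5a8_co, Q1: the equality `√12 n = F(s_n)` holds for no positive integer `n`
-/

open Metric

namespace Pool.Agent.Results.MP_77b5a8_co.NeverEquality

/-- The Euclidean plane. -/
abbrev E2 := EuclideanSpace ℝ (Fin 2)

/-- The axis-parallel closed square `[0, s] × [0, s]`. -/
def stdSquare (s : ℝ) : Set E2 := {p | ∀ i, p i ∈ Set.Icc (0 : ℝ) s}

/-- `Q` is a closed square of side length `s` (in any position) in the plane. -/
def IsSquareOfSide (Q : Set E2) (s : ℝ) : Prop := ∃ f : E2 ≃ᵢ E2, Q = f '' stdSquare s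

/-- Some square of side length `s` contains `n` nonoverlapping unit discs. -/
def Fits (n : ℕ) (s : ℝ) : Prop :=
  ∃ Q : Set E2, IsSquareOfSide Q s ∧ ∃ c : Fin n → E2, (∀ i, closedBall (c i) 1 ⊆ Q) ∧
    ∀ i j, i ≠ j → Disjoint (interior (closedBall (c i) 1)) (interior (closedBall (c j) 1))

/-- The minimal side length `s_n` of a square containing `n` nonoverlapping unit discs. -/
noncomputable def side (n : ℕ) : ℝ := sInf {s : ℝ | Fits n s}

/-- `F(s) = s² - (3 + √3) s + 2 + 2 √3`. -/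
noncomputable def F (s : ℝ) : ℝ := s ^ 2 - (3 + √3) * s + 2 + 2 * √3

/-- Lattice points of a checkerboard pattern. -/
theorem exists_checker (n A J : ℕ) (h : 2 * (n - 1) < (A + 1) * (J + 1)) :
    ∃ f : Fin n → ℕ × ℕ, Function.Injective f ∧
      ∀ t, (f t).1 ≤ A ∧ (f t).2 ≤ J ∧ ((f t).1 + (f t).2) % 2 = 0 := by
  rcases Nat.even_or_odd (A + 1) with ⟨w, hw⟩ | ⟨w, hw⟩
  · have hw0 : 0 < w := by omega
    refine ⟨fun t => (2 * (t.1 % w) + (t.1 / w) % 2, t.1 / w), ?_, ?_⟩
    · intro t t' htt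
      simp only [Prod.mk.injEq] at htt
      obtain ⟨h1, h2⟩ := htt
      rw [h2] at h1
      have h3 : t.1 % w = t'.1 % w := by omega
      ext
      rw [← Nat.div_add_mod t.1 w, ← Nat.div_add_mod t'.1 w, h2, h3]
    · intro t
      have hlt := Nat.mod_lt t.1 hw0
      have hm : t.1 / w < J + 1 := by
        rw [Nat.div_lt_iff_lt_mul hw0]
        have : A + 1 = 2 * w := by omega
        rw [this] at h
        have ht := t.2
        have h5 : 2 * t.1 ≤ 2 * (n - 1) := by omega
        have h6 : 2 * t.1 < 2 * ((J + 1) * w) := by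
          calc 2 * t.1 ≤ 2 * (n - 1) := h5
            _ < 2 * w * (J + 1) := h
            _ = 2 * ((J + 1) * w) := by ring
        omega
      refine ⟨?_, ?_, ?_⟩
      · simp only; omega
      · simp only; omega
      · simp only; omega
  · have hW0 : 0 < A + 1 := by omega
    refine ⟨fun t => (2 * t.1 % (A + 1), 2 * t.1 / (A + 1)), ?_, ?_⟩
    · intro t t' htt
      simp only [Prod.mk.injEq] at htt
      obtain ⟨h1, h2⟩ := htt
      have h3 : 2 * t.1 = 2 * t'.1 := by
        rw [← Nat.div_add_mod (2 * t.1) (A + 1), ← Nat.div_add_mod (2 * t'.1) (A + 1), h1, h2]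
      ext
      omega
    · intro t
      have hlt := Nat.mod_lt (2 * t.1) hW0
      have hm : 2 * t.1 / (A + 1) < J + 1 := by
        rw [Nat.div_lt_iff_lt_mul hW0]
        have ht := t.2
        calc 2 * t.1 ≤ 2 * (n - 1) := by omega
          _ < (A + 1) * (J + 1) := h
          _ = (J + 1) * (A + 1) := by ring
      refine ⟨by simp only; omega, by simp only; omega, ?_⟩
      have hdm := Nat.div_add_mod (2 * t.1) (A + 1)
      simp only
      set a := 2 * t.1 % (A + 1) with ha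
      set j := 2 * t.1 / (A + 1) with hj
      have h5 : (2 * w + 1) * j + a = 2 * t.1 := by rw [← hw]; exact hdm
      have h6 : a + j + 2 * (w * j) = 2 * t.1 := by rw [← h5]; ring
      omega

theorem four_le_of_checker {a b a' b' : ℤ} (h : (a + b) % 2 = 0) (h' : (a' + b') % 2 = 0)
    (hne : a ≠ a' ∨ b ≠ b') : 4 ≤ (a - a') ^ 2 + 3 * (b - b') ^ 2 := by
  obtain ⟨x, hx⟩ : ∃ x, x = a - a' := ⟨_, rfl⟩
  obtain ⟨y, hy⟩ : ∃ y, y = b - b' := ⟨_, rfl⟩
  rw [← hx, ← hy]
  have hpar : (x + y) % 2 = 0 := by omega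
  have hne' : x ≠ 0 ∨ y ≠ 0 := by omega
  by_cases hy0 : y = 0
  · subst hy0
    have : x ≤ -2 ∨ 2 ≤ x := by omega
    rcases this with h | h <;> nlinarith
  · by_cases hy1 : y = 1 ∨ y = -1
    · have hx' : x ≤ -1 ∨ 1 ≤ x := by omega
      rcases hy1 with h1 | h1 <;> subst h1 <;> rcases hx' with h | h <;> nlinarith
    · have : y ≤ -2 ∨ 2 ≤ y := by omega
      rcases this with h | h <;> nlinarith [sq_nonneg x]

/-- The rows of the hexagonal arrangement. -/
theorem fits_hex (n : ℕ) (L : ℝ) (hL : 0 ≤ L) (h : 2 * √3 * ((n : ℝ) - 1) ≤ L ^ 2) :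
    Fits n (L + 2) := by
  have h3 : (0 : ℝ) < √3 := by positivity
  have h33 : √3 * √3 = 3 := Real.mul_self_sqrt (by norm_num)
  set A := ⌊L⌋₊ with hA
  set J := ⌊L / √3⌋₊ with hJ
  have hA1 : L < A + 1 := Nat.lt_floor_add_one L
  have hJ1 : L / √3 < J + 1 := Nat.lt_floor_add_one _
  have hA0 : (A : ℝ) ≤ L := Nat.floor_le hL
  have hJ0 : (J : ℝ) ≤ L / √3 := Nat.floor_le (by positivity)
  have hJ2 : √3 * J ≤ L := by
    rw [le_div_iff₀ h3] at hJ0; linarith
  have hcount : 2 * (n - 1) < (A + 1) * (J + 1) := by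
    rcases Nat.eq_zero_or_pos n with h0 | h0
    · subst h0; simp
    have : ((2 * (n - 1) : ℕ) : ℝ) < (((A + 1) * (J + 1) : ℕ) : ℝ) := by
      push_cast [Nat.cast_sub h0]
      have e1 : 2 * ((n : ℝ) - 1) ≤ L * (L / √3) := by
        rw [mul_div_assoc', le_div_iff₀ h3]
        nlinarith
      have e2 : L * (L / √3) < (A + 1) * (J + 1) := by
        have p1 : 0 ≤ L / √3 := by positivity
        have p2 : (0 : ℝ) < A + 1 := by positivity
        calc L * (L / √3) ≤ (A + 1) * (L / √3) := by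
              exact mul_le_mul_of_nonneg_right hA1.le p1
          _ < (A + 1) * (J + 1) := by
              exact mul_lt_mul_of_pos_left hJ1 p2
      linarith
    exact_mod_cast this
  obtain ⟨f, hf, hfp⟩ := exists_checker n A J hcount
  refine ⟨stdSquare (L + 2), ⟨IsometryEquiv.refl E2, (Set.image_id _).symm⟩,
    fun t => !₂[1 + ((f t).1 : ℝ), 1 + √3 * ((f t).2 : ℝ)], ?_, ?_⟩
  · intro t p hp i
    obtain ⟨h1, h2, -⟩ := hfp t
    have h1' : ((f t).1 : ℝ) ≤ A := by exact_mod_cast h1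
    have h2' : ((f t).2 : ℝ) ≤ J := by exact_mod_cast h2
    have h2'' : √3 * ((f t).2 : ℝ) ≤ √3 * J := mul_le_mul_of_nonneg_left h2' h3.le
    have h0 : (0 : ℝ) ≤ ((f t).1 : ℝ) := by positivity
    have h0' : (0 : ℝ) ≤ √3 * ((f t).2 : ℝ) := by positivity
    rw [mem_closedBall, EuclideanSpace.dist_eq] at hp
    have hp2 : ∀ i, |p i - (!₂[1 + ((f t).1 : ℝ), 1 + √3 * ((f t).2 : ℝ)] : E2) i| ≤ 1 := by
      intro i
      have := Real.sqrt_le_one.1 hp
      have h4 : dist (p i) ((!₂[1 + ((f t).1 : ℝ), 1 + √3 * ((f t).2 : ℝ)] : E2) i) ^ 2 ≤ 1 := by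
        refine le_trans ?_ this
        exact Finset.single_le_sum (f := fun i => dist (p i)
          ((!₂[1 + ((f t).1 : ℝ), 1 + √3 * ((f t).2 : ℝ)] : E2) i) ^ 2)
          (fun i _ => sq_nonneg _) (Finset.mem_univ i)
      rw [Real.dist_eq] at h4
      rwa [sq_le_one_iff_abs_le_one, abs_abs] at h4
    fin_cases i
    · have := abs_le.1 (hp2 0)
      simp at this
      constructor <;> simp <;> linarith [this.1, this.2]
    · have := abs_le.1 (hp2 1)
      simp at this
      constructor <;> simp <;> linarith [this.1, this.2]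
  · intro i j hij
    rw [interior_closedBall _ one_ne_zero, interior_closedBall _ one_ne_zero,
      disjoint_ball_ball_iff one_pos one_pos, EuclideanSpace.dist_eq]
    apply Real.le_sqrt_of_sq_le
    rw [Fin.sum_univ_two, Real.dist_eq, Real.dist_eq, sq_abs, sq_abs]
    simp only [Matrix.cons_val_zero, Matrix.cons_val_one]
    have hne : f i ≠ f j := fun h => hij (hf h)
    have hne' : ((f i).1 : ℤ) ≠ (f j).1 ∨ ((f i).2 : ℤ) ≠ (f j).2 := by
      by_contra hcon
      push Not at hcon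
      apply hne
      ext
      · exact_mod_cast hcon.1
      · exact_mod_cast hcon.2
    have key := four_le_of_checker (a := (f i).1) (b := (f i).2) (a' := (f j).1) (b' := (f j).2)
      (by have := (hfp i).2.2; omega) (by have := (hfp j).2.2; omega) hne'
    have key' : (4 : ℝ) ≤ (((f i).1 : ℝ) - (f j).1) ^ 2 + 3 * (((f i).2 : ℝ) - (f j).2) ^ 2 := by
      exact_mod_cast key
    nlinarith

theorem two_le_of_fits {n : ℕ} (hn : 0 < n) {s : ℝ} (h : Fits n s) : 2 ≤ s := by
  obtain ⟨Q, ⟨f, rfl⟩, c, hc, -⟩ := h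
  have h0 := hc ⟨0, hn⟩
  set q := f.symm (c ⟨0, hn⟩) with hq
  have hmem : ∀ v : E2, ‖v‖ ≤ 1 → q + v ∈ stdSquare s := by
    intro v hv
    have : f (q + v) ∈ closedBall (c ⟨0, hn⟩) 1 := by
      rw [mem_closedBall]
      calc dist (f (q + v)) (c ⟨0, hn⟩) = dist (f (q + v)) (f q) := by rw [hq]; simp
        _ = dist (q + v) q := f.dist_eq _ _
        _ ≤ 1 := by simpa [dist_eq_norm] using hv
    obtain ⟨z, hz, hzf⟩ := h0 this
    have : z = q + v := f.injective hzf
    rwa [← this]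
  have e1 : ‖(EuclideanSpace.single (0 : Fin 2) (1 : ℝ) : E2)‖ ≤ 1 := by simp
  have a1 := (hmem _ e1 0).2
  have a2 := (hmem (-(EuclideanSpace.single (0 : Fin 2) (1 : ℝ) : E2)) (by simp) 0).1
  simp at a1 a2
  linarith

/-- The set of admissible side lengths is bounded below, so `side n` is at most each of them. -/
theorem side_le {n : ℕ} (hn : 0 < n) {s : ℝ} (h : Fits n s) : side n ≤ s :=
  csInf_le ⟨2, fun _ ht => two_le_of_fits hn ht⟩ h

theorem two_le_side {n : ℕ} (hn : 0 < n) : 2 ≤ side n := by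
  refine le_csInf ?_ fun _ ht => two_le_of_fits hn ht
  have h1 : (1 : ℝ) ≤ n := by exact_mod_cast hn
  refine ⟨_, fits_hex n (√(2 * √3 * ((n : ℝ) - 1))) (Real.sqrt_nonneg _) ?_⟩
  rw [Real.sq_sqrt]
  have : (0 : ℝ) ≤ (n : ℝ) - 1 := by linarith
  positivity

theorem sqrt_twelve : √12 = 2 * √3 := by
  rw [show (12 : ℝ) = 2 ^ 2 * 3 by norm_num, Real.sqrt_mul (by norm_num),
    Real.sqrt_sq (by norm_num)]

theorem side_sq_le {n : ℕ} (hn : 0 < n) : (side n - 2) ^ 2 ≤ √12 * ((n : ℝ) - 1) := by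
  have h1 : (1 : ℝ) ≤ n := by exact_mod_cast hn
  have hnn : (0 : ℝ) ≤ 2 * √3 * ((n : ℝ) - 1) := by
    have : (0 : ℝ) ≤ (n : ℝ) - 1 := by linarith
    positivity
  have h2 := side_le hn (fits_hex n (√(2 * √3 * ((n : ℝ) - 1))) (Real.sqrt_nonneg _)
    (by rw [Real.sq_sqrt hnn]))
  have h3 := two_le_side hn
  rw [sqrt_twelve]
  calc (side n - 2) ^ 2 ≤ (√(2 * √3 * ((n : ℝ) - 1))) ^ 2 :=
        pow_le_pow_left₀ (by linarith) (by linarith) 2
    _ = 2 * √3 * ((n : ℝ) - 1) := Real.sq_sqrt hnn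

/-- **Q1 of MP_77b5a8_co, answered negatively.**  For every positive integer `n` one has
`√12 n ≥ F(s_n) + √12 + (√3 - 1)(s_n - 2)`, where the extra term on the right is at least `√12`;
hence the equality `√12 n = F(s_n)` holds for no positive integer `n`, and the difference
`√12 n - F(s_n)` tends to infinity. -/
theorem result :
    (∀ n : ℕ, 0 < n → 2 ≤ side n ∧
      F (side n) + √12 + (√3 - 1) * (side n - 2) ≤ √12 * n) ∧
    {n : ℕ | 0 < n ∧ √12 * n = F (side n)} = ∅ := by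
  have h3 : (1 : ℝ) < √3 := by
    rw [Real.lt_sqrt (by norm_num)]; norm_num
  have key : ∀ n : ℕ, 0 < n → 2 ≤ side n ∧
      F (side n) + √12 + (√3 - 1) * (side n - 2) ≤ √12 * n := by
    intro n hn
    refine ⟨two_le_side hn, ?_⟩
    have := side_sq_le hn
    unfold F
    nlinarith
  refine ⟨key, ?_⟩
  ext n
  simp only [Set.mem_ofPred_eq, Set.mem_empty_iff_false, iff_false, not_and]
  intro hn heq
  obtain ⟨h2, h4⟩ := key n hn
  have h12 : 0 < √12 := by positivity
  have : 0 ≤ (√3 - 1) * (side n - 2) := mul_nonneg (by linarith) (by linarith)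
  linarith

end Pool.Agent.Results.MP_77b5a8_co.NeverEquality
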